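import Mathlib

/-! Part C of MP_f3a553_pr: martingale central limit theorem with deterministic compensators. -/

set_option autoImplicit false

open MeasureTheory ProbabilityTheory Filter Finset Topology

namespace Pool.Agent.Helper1.QC

theorem cexp_remainder (u : ℝ) :
    ‖Complex.exp (Complex.I * u) - (1 + Complex.I * u - (u : ℂ) ^ 2 / 2)‖ ≤ 4 * |u| ^ 3 := by
  by_cases h : |u| ≤ 1
  · have hx : ‖Complex.I * (u : ℂ)‖ ≤ 1 := by
      rw [norm_mul, Complex.norm_I, one_mul, Complex.norm_real]; exact h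
    have h3 := Complex.exp_bound hx (n := 3) (by norm_num)
    have e : ∑ m ∈ range 3, (Complex.I * (u : ℂ)) ^ m / (m.factorial : ℂ) =
        1 + Complex.I * u - (u : ℂ) ^ 2 / 2 := by
      simp only [Finset.sum_range_succ, Finset.sum_range_zero, Nat.factorial]
      rw [show (Complex.I * (u : ℂ)) ^ 2 = -(u : ℂ) ^ 2 by rw [mul_pow, Complex.I_sq]; ring]
      push_cast
      ring
    rw [e] at h3
    refine h3.trans ?_
    rw [norm_mul, Complex.norm_I, one_mul, Complex.norm_real, Real.norm_eq_abs]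
    have h0 : 0 ≤ |u| ^ 3 := by positivity
    simp only [Nat.factorial, Nat.succ_eq_add_one]
    push_cast
    nlinarith
  · push Not at h
    have h1 : ‖Complex.exp (Complex.I * u)‖ = 1 := by
      rw [mul_comm]; exact Complex.norm_exp_ofReal_mul_I u
    have h2 : ‖(1 : ℂ) + Complex.I * u - (u : ℂ) ^ 2 / 2‖ ≤ 1 + |u| + |u| ^ 2 / 2 := by
      refine (norm_sub_le _ _).trans ?_
      refine (add_le_add_left (norm_add_le _ _) _).trans ?_
      rw [norm_mul, Complex.norm_I, one_mul, Complex.norm_real, norm_div, norm_pow, Complex.norm_real,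
        Real.norm_eq_abs]
      norm_num
    refine (norm_sub_le _ _).trans ?_
    rw [h1]
    have h4 : |u| ≤ |u| ^ 3 := by nlinarith [sq_nonneg (|u| - 1)]
    have h5 : |u| ^ 2 ≤ |u| ^ 3 := by nlinarith [sq_nonneg (|u|)]
    have h6 : 1 ≤ |u| ^ 3 := by linarith
    linarith

theorem cube_le (u ε : ℝ) (hε : 0 < ε) : 4 * |u| ^ 3 ≤ 2 * ε * u ^ 2 + 2 / ε * u ^ 4 := by
  have h : 0 ≤ 2 / ε * (u ^ 2 * (|u| - ε) ^ 2) := by positivity
  have e : 2 / ε * (u ^ 2 * (|u| - ε) ^ 2) = 2 / ε * u ^ 4 + 2 * ε * u ^ 2 - 4 * |u| ^ 3 := by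
    have h2 : |u| ^ 2 = u ^ 2 := sq_abs u
    have h3 : u ^ 2 * (|u| - ε) ^ 2 = u ^ 4 - 2 * ε * |u| ^ 3 + ε ^ 2 * u ^ 2 := by
      have : |u| ^ 3 = |u| * u ^ 2 := by rw [← h2]; ring
      rw [this]
      have : (|u| - ε) ^ 2 = u ^ 2 - 2 * ε * |u| + ε ^ 2 := by rw [← h2]; ring
      rw [this]; ring
    rw [h3]
    field_simp
    ring
  linarith

theorem rexp_remainder (v : ℝ) (hv : 0 ≤ v) : |Real.exp (-v) - (1 - v)| ≤ v ^ 2 := by
  have h1 : 1 - v ≤ Real.exp (-v) := by linarith [Real.add_one_le_exp (-v)]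
  have h2 : Real.exp (-v) ≤ 1 - v + v ^ 2 := by
    rw [Real.exp_neg]
    have h3 : 1 + v ≤ Real.exp v := by linarith [Real.add_one_le_exp v]
    have h4 : (Real.exp v)⁻¹ ≤ (1 + v)⁻¹ := inv_anti₀ (by linarith) h3
    refine h4.trans ?_
    rw [inv_le_iff_one_le_mul₀ (by linarith)]
    nlinarith [mul_nonneg hv (sq_nonneg v)]
  rw [abs_le]; constructor <;> linarith

section step

variable {Ω : Type*} {m : MeasurableSpace Ω} {mΩ : MeasurableSpace Ω} {P : Measure Ω} [IsProbabilityMeasure P]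

theorem int_mono {X : Ω → ℝ} (hX : Measurable X) (h4 : Integrable (fun w => X w ^ 4) P) :
    Integrable X P ∧ Integrable (fun w => X w ^ 2) P := by
  have h0 : Integrable (fun w => 1 + X w ^ 4) P := (integrable_const 1).add h4
  constructor
  · refine h0.mono' hX.aestronglyMeasurable (Eventually.of_forall fun w => ?_)
    rw [Real.norm_eq_abs, abs_le]
    constructor <;> nlinarith [sq_nonneg (X w ^ 2 - 1 / 2), sq_nonneg (X w - 1 / 2), sq_nonneg (X w + 1 / 2)]
  · refine h0.mono' (hX.pow_const 2).aestronglyMeasurable (Eventually.of_forall fun w => ?_)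
    rw [Real.norm_eq_abs, abs_of_nonneg (sq_nonneg _)]
    nlinarith [sq_nonneg (X w ^ 2 - 1 / 2)]

/-- transfer of a real identity to the complex exponential -/
theorem int_cexp (hm : m ≤ mΩ) {Y : Ω → ℝ} (hY : Measurable[m] Y)
    {F G : Ω → ℝ} (hF : Integrable F P) (hG : Integrable G P)
    (h : ∀ g : Ω → ℝ, Measurable[m] g → (∀ w, |g w| ≤ 1) → ∫ w, g w * F w ∂P = ∫ w, g w * G w ∂P) :
    ∫ w, Complex.exp (Complex.I * Y w) * (F w : ℂ) ∂P =
      ∫ w, Complex.exp (Complex.I * Y w) * (G w : ℂ) ∂P := by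
  have hY' : Measurable Y := hY.mono hm le_rfl
  have hc : Measurable[m] fun w => Real.cos (Y w) := Real.measurable_cos.comp hY
  have hs : Measurable[m] fun w => Real.sin (Y w) := Real.measurable_sin.comp hY
  have hc' : Measurable fun w => Real.cos (Y w) := Real.measurable_cos.comp hY'
  have hs' : Measurable fun w => Real.sin (Y w) := Real.measurable_sin.comp hY'
  have key : ∀ H : Ω → ℝ, Integrable H P →
      ∫ w, Complex.exp (Complex.I * Y w) * (H w : ℂ) ∂P =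
        ((∫ w, Real.cos (Y w) * H w ∂P : ℝ) : ℂ) + Complex.I * ((∫ w, Real.sin (Y w) * H w ∂P : ℝ) : ℂ) := by
    intro H hH
    have i1 : Integrable (fun w => Real.cos (Y w) * H w) P :=
      hH.bdd_mul hc'.aestronglyMeasurable (c := 1)
        (Eventually.of_forall fun w => by simpa using Real.abs_cos_le_one (Y w))
    have i2 : Integrable (fun w => Real.sin (Y w) * H w) P :=
      hH.bdd_mul hs'.aestronglyMeasurable (c := 1)
        (Eventually.of_forall fun w => by simpa using Real.abs_sin_le_one (Y w))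
    have i1' : Integrable (fun w => ((Real.cos (Y w) * H w : ℝ) : ℂ)) P := i1.ofReal
    have i2' : Integrable (fun w => Complex.I * ((Real.sin (Y w) * H w : ℝ) : ℂ)) P := i2.ofReal.const_mul _
    rw [← integral_complex_ofReal, ← integral_complex_ofReal, ← integral_const_mul, ← integral_add i1' i2']
    refine integral_congr_ae (Eventually.of_forall fun w => ?_)
    simp only
    rw [mul_comm Complex.I, Complex.exp_mul_I]
    push_cast
    ring
  rw [key F hF, key G hG, h _ hc (fun w => Real.abs_cos_le_one _), h _ hs (fun w => Real.abs_sin_le_one _)]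

theorem step (hm : m ≤ mΩ) {Y X V : Ω → ℝ} (hY : Measurable[m] Y)
    (hX : Measurable X) (h4 : Integrable (fun w => X w ^ 4) P) (hV : Integrable V P)
    (h1 : ∀ g : Ω → ℝ, Measurable[m] g → (∀ w, |g w| ≤ 1) → ∫ w, g w * X w ∂P = 0)
    (h2 : ∀ g : Ω → ℝ, Measurable[m] g → (∀ w, |g w| ≤ 1) →
      ∫ w, g w * X w ^ 2 ∂P = ∫ w, g w * V w ∂P)
    (a θ ε : ℝ) (ha : 0 ≤ a) (hε : 0 < ε) :
    ‖∫ w, Complex.exp (Complex.I * ((Y w + θ * X w : ℝ) : ℂ)) ∂P -
        (Real.exp (-(θ ^ 2 * a / 2)) : ℂ) * ∫ w, Complex.exp (Complex.I * Y w) ∂P‖ ≤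
      (θ ^ 2 / 2 + 2 * ε * θ ^ 2) * ∫ w, |V w - a| ∂P + 2 * ε * θ ^ 2 * a +
        2 / ε * θ ^ 4 * ∫ w, X w ^ 4 ∂P + θ ^ 4 * a ^ 2 / 4 := by
  have hY' : Measurable Y := hY.mono hm le_rfl
  obtain ⟨hX1, hX2⟩ := int_mono hX h4
  have hE : ∀ w, ‖Complex.exp (Complex.I * (Y w : ℂ))‖ = 1 := fun w => by
    rw [mul_comm]; exact Complex.norm_exp_ofReal_mul_I _
  have hEm : AEStronglyMeasurable (fun w => Complex.exp (Complex.I * (Y w : ℂ))) P := by
    apply Measurable.aestronglyMeasurable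
    fun_prop
  have hEi : Integrable (fun w => Complex.exp (Complex.I * (Y w : ℂ))) P :=
    (integrable_const (1 : ℝ)).mono' hEm (Eventually.of_forall fun w => (hE w).le)
  -- the three exact integrals
  have e1 : ∫ w, Complex.exp (Complex.I * Y w) * (X w : ℂ) ∂P = 0 := by
    have := int_cexp (P := P) hm hY (F := X) (G := fun _ => 0) hX1 (integrable_zero _ _ _)
      (fun g hg hg' => by rw [h1 g hg hg']; simp)
    rw [this]; simp
  have e2 : ∫ w, Complex.exp (Complex.I * Y w) * ((X w ^ 2 : ℝ) : ℂ) ∂P =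
      ∫ w, Complex.exp (Complex.I * Y w) * (V w : ℂ) ∂P := int_cexp hm hY hX2 hV h2
  -- remainder
  set r : Ω → ℂ := fun w => Complex.exp (Complex.I * ((θ * X w : ℝ) : ℂ)) -
    (1 + Complex.I * ((θ * X w : ℝ) : ℂ) - (((θ * X w : ℝ) : ℂ)) ^ 2 / 2) with hr
  have hrb : ∀ w, ‖r w‖ ≤ 2 * ε * (θ * X w) ^ 2 + 2 / ε * (θ * X w) ^ 4 := fun w =>
    (cexp_remainder _).trans (cube_le _ _ hε)
  set ρ : ℝ := Real.exp (-(θ ^ 2 * a / 2)) - (1 - θ ^ 2 * a / 2) with hρ
  have hρb : |ρ| ≤ (θ ^ 2 * a / 2) ^ 2 := rexp_remainder _ (by positivity)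
  have hbi : Integrable (fun w => 2 * ε * (θ * X w) ^ 2 + 2 / ε * (θ * X w) ^ 4) P := by
    have := (hX2.const_mul (2 * ε * θ ^ 2)).add (h4.const_mul (2 / ε * θ ^ 4))
    refine this.congr (Eventually.of_forall fun w => ?_)
    simp only [Pi.add_apply]; ring
  have hrm : AEStronglyMeasurable r P := by
    apply Measurable.aestronglyMeasurable
    rw [hr]; fun_prop
  have hEr : Integrable (fun w => Complex.exp (Complex.I * (Y w : ℂ)) * r w) P := by
    refine hbi.mono' (hEm.mul hrm) (Eventually.of_forall fun w => ?_)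
    rw [norm_mul, hE, one_mul]; exact hrb w
  have hEX : Integrable (fun w => Complex.exp (Complex.I * (Y w : ℂ)) * (X w : ℂ)) P := by
    refine hX1.norm.mono' (hEm.mul hX1.ofReal.aestronglyMeasurable) (Eventually.of_forall fun w => ?_)
    rw [norm_mul, hE, one_mul, Complex.norm_real]
  have hEX2 : Integrable (fun w => Complex.exp (Complex.I * (Y w : ℂ)) * ((X w ^ 2 : ℝ) : ℂ)) P := by
    refine hX2.norm.mono' (hEm.mul hX2.ofReal.aestronglyMeasurable) (Eventually.of_forall fun w => ?_)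
    rw [norm_mul, hE, one_mul, Complex.norm_real]
  have hEV : Integrable (fun w => Complex.exp (Complex.I * (Y w : ℂ)) * (V w : ℂ)) P := by
    refine hV.norm.mono' (hEm.mul hV.ofReal.aestronglyMeasurable) (Eventually.of_forall fun w => ?_)
    rw [norm_mul, hE, one_mul, Complex.norm_real]
  have hVa : Integrable (fun w => V w - a) P := hV.sub (integrable_const a)
  have hEVa : Integrable (fun w => Complex.exp (Complex.I * (Y w : ℂ)) * ((V w - a : ℝ) : ℂ)) P := by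
    refine hVa.norm.mono' (hEm.mul hVa.ofReal.aestronglyMeasurable) (Eventually.of_forall fun w => ?_)
    rw [norm_mul, hE, one_mul, Complex.norm_real]
  have split : ∫ w, Complex.exp (Complex.I * ((Y w + θ * X w : ℝ) : ℂ)) ∂P =
      ∫ w, Complex.exp (Complex.I * Y w) * r w ∂P + ∫ w, Complex.exp (Complex.I * Y w) ∂P +
      Complex.I * θ * ∫ w, Complex.exp (Complex.I * Y w) * (X w : ℂ) ∂P -
      (θ : ℂ) ^ 2 / 2 * ∫ w, Complex.exp (Complex.I * Y w) * ((X w ^ 2 : ℝ) : ℂ) ∂P := by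
    have k1 : Integrable (fun w => Complex.exp (Complex.I * (Y w : ℂ)) * r w +
        Complex.exp (Complex.I * (Y w : ℂ))) P := hEr.add hEi
    have k2 : Integrable (fun w => Complex.I * θ * (Complex.exp (Complex.I * (Y w : ℂ)) * (X w : ℂ))) P :=
      hEX.const_mul _
    have k3 : Integrable (fun w => Complex.exp (Complex.I * (Y w : ℂ)) * r w +
        Complex.exp (Complex.I * (Y w : ℂ)) +
        Complex.I * θ * (Complex.exp (Complex.I * (Y w : ℂ)) * (X w : ℂ))) P := k1.add k2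
    have k4 : Integrable (fun w => (θ : ℂ) ^ 2 / 2 *
        (Complex.exp (Complex.I * (Y w : ℂ)) * ((X w ^ 2 : ℝ) : ℂ))) P := hEX2.const_mul _
    rw [← integral_const_mul, ← integral_const_mul, ← integral_add hEr hEi, ← integral_add k1 k2,
      ← integral_sub k3 k4]
    refine integral_congr_ae (Eventually.of_forall fun w => ?_)
    simp only [hr]
    push_cast
    rw [mul_add, Complex.exp_add]
    ring
  have splitV : ∫ w, Complex.exp (Complex.I * Y w) * ((V w - a : ℝ) : ℂ) ∂P =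
      ∫ w, Complex.exp (Complex.I * Y w) * (V w : ℂ) ∂P - a * ∫ w, Complex.exp (Complex.I * Y w) ∂P := by
    rw [← integral_const_mul, ← integral_sub hEV (hEi.const_mul _)]
    refine integral_congr_ae (Eventually.of_forall fun w => ?_)
    simp only
    push_cast
    ring
  have main : ∫ w, Complex.exp (Complex.I * ((Y w + θ * X w : ℝ) : ℂ)) ∂P -
        (Real.exp (-(θ ^ 2 * a / 2)) : ℂ) * ∫ w, Complex.exp (Complex.I * Y w) ∂P =
      ∫ w, Complex.exp (Complex.I * Y w) * r w ∂P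
      - (θ : ℂ) ^ 2 / 2 * ∫ w, Complex.exp (Complex.I * Y w) * ((V w - a : ℝ) : ℂ) ∂P
      - (ρ : ℂ) * ∫ w, Complex.exp (Complex.I * Y w) ∂P := by
    rw [split, e1, e2, splitV, hρ]
    push_cast
    ring
  rw [main]
  have b1 : ‖∫ w, Complex.exp (Complex.I * Y w) * r w ∂P‖ ≤
      2 * ε * θ ^ 2 * ∫ w, X w ^ 2 ∂P + 2 / ε * θ ^ 4 * ∫ w, X w ^ 4 ∂P := by
    refine (norm_integral_le_of_norm_le hbi (Eventually.of_forall fun w => ?_)).trans (le_of_eq ?_)
    · rw [norm_mul, hE, one_mul]; exact hrb w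
    · rw [← integral_const_mul, ← integral_const_mul, ← integral_add (hX2.const_mul _) (h4.const_mul _)]
      refine integral_congr_ae (Eventually.of_forall fun w => ?_)
      simp only; ring
  have b2 : ‖∫ w, Complex.exp (Complex.I * Y w) * ((V w - a : ℝ) : ℂ) ∂P‖ ≤ ∫ w, |V w - a| ∂P := by
    refine norm_integral_le_of_norm_le hVa.abs (Eventually.of_forall fun w => ?_)
    rw [norm_mul, hE, one_mul, Complex.norm_real, Real.norm_eq_abs]
  have b3 : ‖∫ w, Complex.exp (Complex.I * Y w) ∂P‖ ≤ 1 := by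
    refine (norm_integral_le_of_norm_le (integrable_const (1 : ℝ)) (Eventually.of_forall fun w => (hE w).le)).trans ?_
    simp
  have b4 : ∫ w, X w ^ 2 ∂P ≤ ∫ w, |V w - a| ∂P + a := by
    have h := h2 (fun _ => 1) measurable_const (fun _ => by simp)
    simp only [one_mul] at h
    rw [h]
    have : ∫ w, V w ∂P = ∫ w, (V w - a) ∂P + a := by
      rw [integral_sub hV (integrable_const a)]; simp
    rw [this]
    have := integral_mono hVa hVa.abs (fun w => le_abs_self (V w - a))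
    linarith
  refine (norm_sub_le _ _).trans ?_
  refine (add_le_add_left (norm_sub_le _ _) _).trans ?_
  rw [norm_mul, norm_mul, norm_div, norm_pow, Complex.norm_real, Complex.norm_real, Real.norm_eq_abs,
    Real.norm_eq_abs, sq_abs]
  have b5 : |ρ| * ‖∫ w, Complex.exp (Complex.I * Y w) ∂P‖ ≤ (θ ^ 2 * a / 2) ^ 2 * 1 :=
    mul_le_mul hρb b3 (norm_nonneg _) (by positivity)
  have b6 : θ ^ 2 / ‖(2 : ℂ)‖ * ‖∫ w, Complex.exp (Complex.I * Y w) * ((V w - a : ℝ) : ℂ) ∂P‖ ≤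
      θ ^ 2 / 2 * ∫ w, |V w - a| ∂P := by
    have : ‖(2 : ℂ)‖ = 2 := by norm_num
    rw [this]
    exact mul_le_mul_of_nonneg_left b2 (by positivity)
  have b7 : 2 * ε * θ ^ 2 * ∫ w, X w ^ 2 ∂P ≤ 2 * ε * θ ^ 2 * (∫ w, |V w - a| ∂P + a) :=
    mul_le_mul_of_nonneg_left b4 (by positivity)
  nlinarith [b1, b5, b6, b7]

end step

theorem mclt {Ω : Type*} {mΩ : MeasurableSpace Ω} {P : Measure Ω} [IsProbabilityMeasure P]
    (I : ℕ → ℕ) (X V : ℕ → ℕ → Ω → ℝ) (a : ℕ → ℕ → ℝ) (lam : ℕ → ℝ)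
    (Fl : ℕ → ℕ → MeasurableSpace Ω) (hFl : ∀ N i, Fl N i ≤ mΩ) (hmono : ∀ N i, Fl N i ≤ Fl N (i + 1))
    (hX : ∀ N i, Measurable[Fl N (i + 1)] (X N i)) (hXi : ∀ N i, Integrable (fun w => X N i w ^ 4) P)
    (hVi : ∀ N i, Integrable (V N i) P)
    (h1 : ∀ N, ∀ i < I N, ∀ g : Ω → ℝ, Measurable[Fl N i] g → (∀ w, |g w| ≤ 1) → ∫ w, g w * X N i w ∂P = 0)
    (h2 : ∀ N, ∀ i < I N, ∀ g : Ω → ℝ, Measurable[Fl N i] g → (∀ w, |g w| ≤ 1) →
      ∫ w, g w * X N i w ^ 2 ∂P = ∫ w, g w * V N i w ∂P)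
    (hlam : ∀ᶠ N in atTop, 0 < lam N) (ha : ∀ N i, 0 ≤ a N i)
    (hV : Tendsto (fun N => (∑ i ∈ range (I N), ∫ w, |V N i w - a N i| ∂P) / lam N ^ 2) atTop (𝓝 0))
    (hX4 : Tendsto (fun N => (∑ i ∈ range (I N), ∫ w, X N i w ^ 4 ∂P) / lam N ^ 4) atTop (𝓝 0))
    (ha1 : Tendsto (fun N => (∑ i ∈ range (I N), a N i) / lam N ^ 2) atTop (𝓝 1))
    (ha2 : Tendsto (fun N => (∑ i ∈ range (I N), a N i ^ 2) / lam N ^ 4) atTop (𝓝 0)) (τ : ℝ) :
    Tendsto (fun N => ∫ w, Complex.exp (Complex.I * τ * (∑ i ∈ range (I N), X N i w) / lam N) ∂P) atTop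
      (𝓝 (Complex.exp (-(τ : ℂ) ^ 2 / 2))) := by
  -- partial sums are measurable
  have hmle : ∀ N i j, i ≤ j → Fl N i ≤ Fl N j := fun N i j hij => by
    induction hij with
    | refl => exact le_rfl
    | step _ ih => exact ih.trans (hmono N _)
  have hS : ∀ N i (c : ℝ), Measurable[Fl N i] fun w => c * ∑ j ∈ range i, X N j w := by
    intro N i c
    refine Measurable.const_mul ?_ c
    refine Finset.measurable_sum _ fun j hj => ?_
    exact (hX N j).mono (hmle N (j + 1) i (Finset.mem_range.1 hj)) le_rfl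
  -- the telescoping bound
  have tele : ∀ N, ∀ ε : ℝ, 0 < ε → ∀ θ : ℝ, ∀ n ≤ I N,
      ‖∫ w, Complex.exp (Complex.I * ((θ * ∑ j ∈ range n, X N j w : ℝ) : ℂ)) ∂P -
        (Real.exp (-(θ ^ 2 * (∑ j ∈ range n, a N j) / 2)) : ℂ)‖ ≤
      (θ ^ 2 / 2 + 2 * ε * θ ^ 2) * ∑ i ∈ range n, ∫ w, |V N i w - a N i| ∂P +
        2 * ε * θ ^ 2 * ∑ i ∈ range n, a N i + 2 / ε * θ ^ 4 * ∑ i ∈ range n, ∫ w, X N i w ^ 4 ∂P +
        θ ^ 4 / 4 * ∑ i ∈ range n, a N i ^ 2 := by
    intro N ε hε θ n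
    induction n with
    | zero => intro _; simp
    | succ n ih =>
      intro hn
      have ih := ih (by omega)
      have st := step (P := P) (hFl N n) (hS N n θ) ((hX N n).mono (hFl N (n + 1)) le_rfl) (hXi N n) (hVi N n)
        (h1 N n (by omega)) (h2 N n (by omega)) (a N n) θ ε (ha N n) hε
      have e : ∀ w, θ * ∑ j ∈ range (n + 1), X N j w = θ * ∑ j ∈ range n, X N j w + θ * X N n w := by
        intro w; rw [Finset.sum_range_succ]; ring
      simp only [e]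
      have e' : Real.exp (-(θ ^ 2 * (∑ j ∈ range (n + 1), a N j) / 2)) =
          Real.exp (-(θ ^ 2 * a N n / 2)) * Real.exp (-(θ ^ 2 * (∑ j ∈ range n, a N j) / 2)) := by
        rw [← Real.exp_add, Finset.sum_range_succ]; congr 1; ring
      rw [e']
      have e'' : ∀ A B : ℂ, A - ((Real.exp (-(θ ^ 2 * a N n / 2)) *
          Real.exp (-(θ ^ 2 * (∑ j ∈ range n, a N j) / 2)) : ℝ) : ℂ) =
          (A - (Real.exp (-(θ ^ 2 * a N n / 2)) : ℂ) * B) + (Real.exp (-(θ ^ 2 * a N n / 2)) : ℂ) *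
            (B - (Real.exp (-(θ ^ 2 * (∑ j ∈ range n, a N j) / 2)) : ℂ)) := by
        intro A B; push_cast; ring
      rw [e'' _ (∫ w, Complex.exp (Complex.I * ((θ * ∑ j ∈ range n, X N j w : ℝ) : ℂ)) ∂P)]
      refine (norm_add_le _ _).trans ?_
      rw [norm_mul, Complex.norm_real, Real.norm_eq_abs, abs_of_pos (Real.exp_pos _)]
      have hle : Real.exp (-(θ ^ 2 * a N n / 2)) ≤ 1 := by
        rw [Real.exp_le_one_iff]
        have := ha N n
        have : 0 ≤ θ ^ 2 * a N n / 2 := by positivity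
        linarith
      have hm := mul_le_mul hle ih (norm_nonneg _) zero_le_one
      simp only [Finset.sum_range_succ]
      linarith
  -- limit
  have hlim0 : Tendsto (fun N => (Real.exp (-(τ ^ 2 * ((∑ i ∈ range (I N), a N i) / lam N ^ 2) / 2)) : ℂ)) atTop
      (𝓝 (Complex.exp (-(τ : ℂ) ^ 2 / 2))) := by
    have : Complex.exp (-(τ : ℂ) ^ 2 / 2) = ((Real.exp (-(τ ^ 2 * 1 / 2)) : ℝ) : ℂ) := by
      push_cast; congr 1; ring
    rw [this]
    refine (Complex.continuous_ofReal.tendsto _).comp ?_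
    refine (Real.continuous_exp.tendsto _).comp ?_
    exact ((ha1.const_mul (τ ^ 2)).div_const 2).neg
  rw [← tendsto_sub_nhds_zero_iff] at hlim0 ⊢
  rw [NormedAddGroup.tendsto_nhds_zero] at hlim0 ⊢
  intro δ hδ
  -- choose ε
  obtain ⟨ε, hε, hεδ⟩ : ∃ ε : ℝ, 0 < ε ∧ 2 * ε * τ ^ 2 < δ / 4 := by
    refine ⟨δ / (16 * (τ ^ 2 + 1)), by positivity, ?_⟩
    have h : 0 < τ ^ 2 + 1 := by positivity
    have : 2 * (δ / (16 * (τ ^ 2 + 1))) * τ ^ 2 = δ / 8 * (τ ^ 2 / (τ ^ 2 + 1)) := by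
      field_simp; ring
    rw [this]
    have h2 : τ ^ 2 / (τ ^ 2 + 1) ≤ 1 := by rw [div_le_one h]; linarith
    nlinarith
  have hb : Tendsto (fun N => (τ ^ 2 / 2 + 2 * ε * τ ^ 2) * ((∑ i ∈ range (I N), ∫ w, |V N i w - a N i| ∂P) / lam N ^ 2) +
      2 * ε * τ ^ 2 * ((∑ i ∈ range (I N), a N i) / lam N ^ 2) +
      2 / ε * τ ^ 4 * ((∑ i ∈ range (I N), ∫ w, X N i w ^ 4 ∂P) / lam N ^ 4) +
      τ ^ 4 / 4 * ((∑ i ∈ range (I N), a N i ^ 2) / lam N ^ 4)) atTop
      (𝓝 ((τ ^ 2 / 2 + 2 * ε * τ ^ 2) * 0 + 2 * ε * τ ^ 2 * 1 + 2 / ε * τ ^ 4 * 0 + τ ^ 4 / 4 * 0)) :=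
    (((hV.const_mul _).add (ha1.const_mul _)).add (hX4.const_mul _)).add (ha2.const_mul _)
  have hb' := hb.eventually (gt_mem_nhds (show _ < δ / 2 by linarith))
  filter_upwards [hlim0 (δ / 2) (by positivity), hb', hlam] with N hN1 hN2 hN3
  have t := tele N ε hε (τ / lam N) (I N) le_rfl
  have c1 : ∀ w, Complex.exp (Complex.I * τ * ((∑ i ∈ range (I N), X N i w : ℝ) : ℂ) / (lam N : ℂ)) =
      Complex.exp (Complex.I * ((τ / lam N * ∑ j ∈ range (I N), X N j w : ℝ) : ℂ)) := by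
    intro w; congr 1; push_cast; ring
  have c2 : (τ / lam N) ^ 2 * (∑ j ∈ range (I N), a N j) / 2 =
      τ ^ 2 * ((∑ i ∈ range (I N), a N i) / lam N ^ 2) / 2 := by
    field_simp
  rw [c2] at t
  simp only [c1]
  have tri : ∀ A B C : ℂ, ‖A - C‖ ≤ ‖A - B‖ + ‖B - C‖ := fun A B C => by
    have : A - C = (A - B) + (B - C) := by ring
    rw [this]; exact norm_add_le _ _
  have q1 : ‖∫ w, Complex.exp (Complex.I * ((τ / lam N * ∑ j ∈ range (I N), X N j w : ℝ) : ℂ)) ∂P -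
      (Real.exp (-(τ ^ 2 * ((∑ i ∈ range (I N), a N i) / lam N ^ 2) / 2)) : ℂ)‖ ≤ δ / 2 := by
    refine t.trans (le_trans (le_of_eq ?_) hN2.le)
    field_simp
  have q2 := tri (∫ w, Complex.exp (Complex.I * ((τ / lam N * ∑ j ∈ range (I N), X N j w : ℝ) : ℂ)) ∂P)
    (Real.exp (-(τ ^ 2 * ((∑ i ∈ range (I N), a N i) / lam N ^ 2) / 2)) : ℂ) (Complex.exp (-(τ : ℂ) ^ 2 / 2))
  linarith

end Pool.Agent.Helper1.QC
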